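import Pool.Agent.H95.WMean

set_option autoImplicit false
open Pool.Agent.H95.WMean

theorem Pool.Agent.Results.MP_968b24_an.Q1.result (s : ℕ → ℝ) (h : ∃ C, ∀ i, |s i| ≤ C) :
    ∃ l L, Adm s l L ∧ FM l ∧ Antitone l :=
  Pool.Agent.H95.WMean.q1 s h
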