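import Pool.Agent.H95.WMean

set_option autoImplicit false
open Pool.Agent.H95.WMean

theorem Pool.Agent.Results.MP_968b24_an.Q2.result :
    ∃ s : ℕ → ℝ, (∃ C, ∀ i, |s i| ≤ C) ∧
      ∃ l l' L L', Adm s l L ∧ Adm s l' L' ∧ FM l ∧ FM l' ∧ L ≠ L' :=
  Pool.Agent.H95.WMean.q2
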